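import Pool.Agent.Run7.h686.SS.Zero
import Pool.Agent.Results.MP_993212_an.FullShiftComponentsSSE

/-!
# MP_993212_an: for all `2 × 2` matrices over `ℕ` with `500 |det A| ≤ (tr A)²`, strong shift
equivalence and shift equivalence over `ℕ` coincide; for irreducible ones they coincide with shift
equivalence over `ℤ`

New: the case of a square discriminant (integer eigenvalues). The case of a non-square discriminant
is the starting result `ShiftEqSmallDet`, the reducible case rests on `FullShiftComponentsSSE`.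
-/

set_option autoImplicit false

namespace Pool.Agent.Results.MP_993212_an.AllTwoByTwoSmallDet

open Matrix

/-- Elementary equivalence of square matrices over `ℕ`: `A = R S`, `B = S R` for rectangular
matrices `R`, `S` over `ℕ`. -/
def Elem (X Y : Σ n : ℕ, Matrix (Fin n) (Fin n) ℕ) : Prop :=
  ∃ (R : Matrix (Fin X.1) (Fin Y.1) ℕ) (S : Matrix (Fin Y.1) (Fin X.1) ℕ),
    X.2 = R * S ∧ Y.2 = S * R

/-- Strong shift equivalence over `ℕ` (a finite chain of elementary equivalences). -/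
def SSE {n m : ℕ} (A : Matrix (Fin n) (Fin n) ℕ) (B : Matrix (Fin m) (Fin m) ℕ) : Prop :=
  Relation.TransGen Elem ⟨n, A⟩ ⟨m, B⟩

/-- Shift equivalence of square matrices over a semiring `k` (used for `k = ℕ` and `k = ℤ`). -/
def SE (k : Type) [Semiring k] {n m : ℕ} (A : Matrix (Fin n) (Fin n) k)
    (B : Matrix (Fin m) (Fin m) k) : Prop :=
  ∃ l, 1 ≤ l ∧ ∃ (R : Matrix (Fin n) (Fin m) k) (S : Matrix (Fin m) (Fin n) k),
    A ^ l = R * S ∧ B ^ l = S * R ∧ A * R = R * B ∧ S * A = B * S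

theorem SE.symm {k : Type} [Semiring k] {n m : ℕ} {A : Matrix (Fin n) (Fin n) k}
    {B : Matrix (Fin m) (Fin m) k} (h : SE k A B) : SE k B A := by
  obtain ⟨l, hl, R, S, h1, h2, h3, h4⟩ := h
  exact ⟨l, hl, S, R, h2, h1, h4.symm, h3.symm⟩

theorem SE.trans {k : Type} [Semiring k] {n m p : ℕ} {A : Matrix (Fin n) (Fin n) k}
    {B : Matrix (Fin m) (Fin m) k} {C : Matrix (Fin p) (Fin p) k} (h : SE k A B)
    (h' : SE k B C) : SE k A C := Pool.Agent.Y321.SE2.se_trans h h'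

theorem SSE.se {n m : ℕ} {A : Matrix (Fin n) (Fin n) ℕ} {B : Matrix (Fin m) (Fin m) ℕ}
    (h : SSE A B) : SE ℕ A B :=
  Pool.Agent.Y321.SE2.se_of_transGen (fun _ _ hXY => hXY) h

theorem transGen_symm {X Y : Σ n : ℕ, Matrix (Fin n) (Fin n) ℕ}
    (h : Relation.TransGen Elem X Y) : Relation.TransGen Elem Y X := by
  have hs : ∀ X Y, Elem X Y → Elem Y X := by
    rintro X Y ⟨R, S, h1, h2⟩
    exact ⟨S, R, h2, h1⟩
  induction h with
  | single h => exact Relation.TransGen.single (hs _ _ h)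
  | tail _ h ih => exact Relation.TransGen.head (hs _ _ h) ih

theorem SSE.symm {n m : ℕ} {A : Matrix (Fin n) (Fin n) ℕ} {B : Matrix (Fin m) (Fin m) ℕ}
    (h : SSE A B) : SSE B A := transGen_symm h

theorem SSE.of_elem {n m : ℕ} {A : Matrix (Fin n) (Fin n) ℕ} {B : Matrix (Fin m) (Fin m) ℕ}
    (R : Matrix (Fin n) (Fin m) ℕ) (S : Matrix (Fin m) (Fin n) ℕ) (h1 : A = R * S)
    (h2 : B = S * R) : SSE A B :=
  Relation.TransGen.single ⟨R, S, h1, h2⟩

/-- Strong shift equivalent to a matrix whose components are full shifts or cycles. -/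
def Good {n : ℕ} (A : Matrix (Fin n) (Fin n) ℕ) : Prop :=
  ∃ (k : ℕ) (A' : Matrix (Fin k) (Fin k) ℕ), SSE A A' ∧
    FullShiftComponentsSSE.FullOrCycleComponents A'

theorem good_good {n m : ℕ} {A : Matrix (Fin n) (Fin n) ℕ} {B : Matrix (Fin m) (Fin m) ℕ}
    (hA : Good A) (hB : Good B) (h : SE ℕ A B) : SSE A B := by
  obtain ⟨k, A', s1, c1⟩ := hA
  obtain ⟨k', B', s2, c2⟩ := hB
  have h' : SE ℕ A' B' := (s1.se.symm.trans h).trans s2.se
  have h3 : FullShiftComponentsSSE.SSE A' B' := by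
    refine (FullShiftComponentsSSE.result.1 A' B' c1 c2).2 ?_
    obtain ⟨l, hl, R, S, e1, e2, e3, e4⟩ := h'
    exact ⟨l, R, S, hl, e1.symm, e2.symm, e3, e4⟩
  have h4 : SSE A' B' := h3
  exact Relation.TransGen.trans (Relation.TransGen.trans s1 h4) s2.symm

theorem good_tri (A : Matrix (Fin 2) (Fin 2) ℕ) (h : A 0 1 = 0 ∨ A 1 0 = 0) : Good A := by
  have key : ∀ A : Matrix (Fin 2) (Fin 2) ℕ, A 1 0 = 0 →
      FullShiftComponentsSSE.FullOrCycleComponents A := by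
    intro A h
    refine FullShiftComponentsSSE.result.2.2.2.2 A ?_
    intro i j hij
    fin_cases i <;> fin_cases j
    · exact le_rfl
    · exact Fin.zero_le _
    · exact absurd h hij
    · exact le_rfl
  rcases h with h | h
  · refine ⟨2, !![0, 1; 1, 0] * (A * !![0, 1; 1, 0]), ?_, key _ ?_⟩
    · refine SSE.of_elem (A * !![0, 1; 1, 0]) !![0, 1; 1, 0] ?_ rfl
      ext i j; fin_cases i <;> fin_cases j <;> simp [Matrix.mul_apply, Fin.sum_univ_two]
    · simp [Matrix.mul_apply, Fin.sum_univ_two, h]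
  · exact ⟨2, A, SSE.of_elem A 1 (by simp) (by simp), key A h⟩

theorem good_sing (A : Matrix (Fin 2) (Fin 2) ℕ) (hA : 1 ≤ A 0 1 ∧ 1 ≤ A 1 0)
    (hd : (A.map (Nat.cast : ℕ → ℤ)).det = 0) : Good A := by
  have hPA : Pool.Agent.Run7.h686.SS.Pos (A.map (Nat.cast : ℕ → ℤ)) :=
    ⟨fun i j => by simp, by simpa using hA.1, by simpa using hA.2⟩
  have hq := Pool.Agent.Run7.h686.SS.T.Q_det0 hPA hd
  have e : (!![(A.map (Nat.cast : ℕ → ℤ)).trace] : Matrix (Fin 1) (Fin 1) ℤ) =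
      (!![A 0 0 + A 1 1] : Matrix (Fin 1) (Fin 1) ℕ).map (Nat.cast : ℕ → ℤ) := by
    ext i j
    fin_cases i; fin_cases j
    simp [Matrix.trace_fin_two]
  rw [e] at hq
  refine ⟨1, !![A 0 0 + A 1 1], Pool.Agent.Y321.SE2.transGen_of_Q
    (fun _ _ R S => ⟨R, S, rfl, rfl⟩) A _ hq, ?_⟩
  refine FullShiftComponentsSSE.result.2.2.2.2 _ ?_
  intro i j _
  exact (Subsingleton.elim i j).le

/-- Both irreducible. -/
theorem irr_case (A B : Matrix (Fin 2) (Fin 2) ℕ)
    (hA : 1 ≤ A 0 1 ∧ 1 ≤ A 1 0) (hB : 1 ≤ B 0 1 ∧ 1 ≤ B 1 0)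
    (hquad : 500 * |(A.map (Nat.cast : ℕ → ℤ)).det| ≤ (A.map (Nat.cast : ℕ → ℤ)).trace ^ 2)
    (h : SE ℤ (A.map (Nat.cast : ℕ → ℤ)) (B.map (Nat.cast : ℕ → ℤ))) : SSE A B :=
  Pool.Agent.Y321.SE2.transGen_of_Q (fun _ _ R S => ⟨R, S, rfl, rfl⟩) A B
    (Pool.Agent.Run7.h686.SS.T.Q_all A B hA hB hquad h)

/-- An eigenvalue with a nonnegative eigenvector exceeds both diagonal entries. -/
theorem big_eig {a b c d x y β : ℤ} (_ : 0 ≤ a) (_ : 0 ≤ d) (hb : 1 ≤ b) (hc : 1 ≤ c)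
    (hx : 0 ≤ x) (hy : 0 ≤ y) (hxy : x ≠ 0 ∨ y ≠ 0) (h1 : a * x + b * y = β * x)
    (h2 : c * x + d * y = β * y) : a < β ∧ d < β := by
  have hx0 : 0 < x := by
    rcases hx.lt_or_eq with h | h
    · exact h
    · rw [← h] at h1
      have : b * y = 0 := by linarith
      rcases mul_eq_zero.mp this with h3 | h3
      · linarith
      · rcases hxy with h4 | h4
        · exact absurd h.symm h4
        · exact absurd h3 h4
  have hy0 : 0 < y := by
    rcases hy.lt_or_eq with h | h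
    · exact h
    · rw [← h] at h2
      have : c * x = 0 := by linarith
      rcases mul_eq_zero.mp this with h3 | h3
      · linarith
      · linarith
  constructor
  · have h3 : 0 < b * y := mul_pos (by linarith) hy0
    have h4 : a * x < β * x := by linarith
    exact lt_of_mul_lt_mul_right h4 hx
  · have h3 : 0 < c * x := mul_pos (by linarith) hx0
    have h4 : d * y < β * y := by linarith
    exact lt_of_mul_lt_mul_right h4 hy

/-- An irreducible nonsingular matrix is not shift equivalent to a reducible one. -/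
theorem no_se (A B : Matrix (Fin 2) (Fin 2) ℕ) (hA : 1 ≤ A 0 1 ∧ 1 ≤ A 1 0)
    (hd : (A.map (Nat.cast : ℕ → ℤ)).det ≠ 0) (hB : B 0 1 = 0 ∨ B 1 0 = 0) (h : SE ℕ A B) :
    False := by
  obtain ⟨l, hl, R, S, e1, e2, e3, e4⟩ := h
  have hm : ∀ X Y : Matrix (Fin 2) (Fin 2) ℕ,
      (X * Y).map (Nat.cast : ℕ → ℤ) = X.map (Nat.cast : ℕ → ℤ) * Y.map (Nat.cast : ℕ → ℤ) :=
    fun X Y => Matrix.map_mul (f := Nat.castRingHom ℤ)
  have hp : ∀ (X : Matrix (Fin 2) (Fin 2) ℕ) (j : ℕ),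
      (X ^ j).map (Nat.cast : ℕ → ℤ) = (X.map (Nat.cast : ℕ → ℤ)) ^ j :=
    fun X j => Matrix.map_pow (f := Nat.castRingHom ℤ) X j
  have z1 := congrArg (fun M : Matrix (Fin 2) (Fin 2) ℕ => M.map (Nat.cast : ℕ → ℤ)) e1
  have z3 := congrArg (fun M : Matrix (Fin 2) (Fin 2) ℕ => M.map (Nat.cast : ℕ → ℤ)) e3
  have z4 := congrArg (fun M : Matrix (Fin 2) (Fin 2) ℕ => M.map (Nat.cast : ℕ → ℤ)) e4
  simp only [hm, hp] at z1 z3 z4
  have hAn : ∀ i j, 0 ≤ (A.map (Nat.cast : ℕ → ℤ)) i j := fun i j => by simp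
  have hRn : ∀ i j, 0 ≤ (R.map (Nat.cast : ℕ → ℤ)) i j := fun i j => by simp
  have hSn : ∀ i j, 0 ≤ (S.map (Nat.cast : ℕ → ℤ)) i j := fun i j => by simp
  have hA1 : 1 ≤ (A.map (Nat.cast : ℕ → ℤ)) 0 1 := by simpa using hA.1
  have hA2 : 1 ≤ (A.map (Nat.cast : ℕ → ℤ)) 1 0 := by simpa using hA.2
  have hB' : (B.map (Nat.cast : ℕ → ℤ)) 0 1 = 0 ∨ (B.map (Nat.cast : ℕ → ℤ)) 1 0 = 0 := by
    simpa using hB
  generalize A.map (Nat.cast : ℕ → ℤ) = A' at *
  generalize B.map (Nat.cast : ℕ → ℤ) = B' at *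
  generalize R.map (Nat.cast : ℕ → ℤ) = R' at *
  generalize S.map (Nat.cast : ℕ → ℤ) = S' at *
  have hdRS : R'.det * S'.det ≠ 0 := by
    rw [← Matrix.det_mul, ← z1, Matrix.det_pow]
    exact pow_ne_zero l hd
  have hdR : R'.det ≠ 0 := left_ne_zero_of_mul hdRS
  have hdS : S'.det ≠ 0 := right_ne_zero_of_mul hdRS
  have htr : B'.trace = A'.trace := by
    have h1 : R'.adjugate * A' * R' = R'.det • B' := by
      rw [Matrix.mul_assoc, z3, ← Matrix.mul_assoc, Matrix.adjugate_mul, Matrix.smul_mul,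
        Matrix.one_mul]
    have h2 := congrArg Matrix.trace h1
    rw [Matrix.trace_mul_cycle, Matrix.mul_adjugate, Matrix.smul_mul, Matrix.one_mul,
      Matrix.trace_smul, Matrix.trace_smul, smul_eq_mul, smul_eq_mul] at h2
    exact (mul_left_cancel₀ hdR h2).symm
  rw [Matrix.trace_fin_two, Matrix.trace_fin_two] at htr
  rw [Matrix.det_fin_two] at hdR hdS
  have k00 := congrFun (congrFun z3 0) 0
  have k01 := congrFun (congrFun z3 0) 1
  have k10 := congrFun (congrFun z3 1) 0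
  have k11 := congrFun (congrFun z3 1) 1
  have s00 := congrFun (congrFun z4 0) 0
  have s01 := congrFun (congrFun z4 0) 1
  have s10 := congrFun (congrFun z4 1) 0
  have s11 := congrFun (congrFun z4 1) 1
  simp only [Matrix.mul_apply, Fin.sum_univ_two] at k00 k01 k10 k11 s00 s01 s10 s11
  rcases hB' with hB' | hB'
  · simp only [hB', mul_zero, zero_mul, add_zero, zero_add] at k00 k01 k10 k11 s00 s01 s10 s11
    have r1 := big_eig (hAn 0 0) (hAn 1 1) hA1 hA2 (hRn 0 1) (hRn 1 1) (by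
      by_contra hcon
      push Not at hcon
      rw [hcon.1, hcon.2] at hdR
      simp at hdR) (β := B' 1 1) (by linarith) (by linarith)
    have r2 := big_eig (a := A' 0 0) (b := A' 1 0) (c := A' 0 1) (d := A' 1 1) (hAn 0 0) (hAn 1 1)
      hA2 hA1 (hSn 0 0) (hSn 0 1) (by
      by_contra hcon
      push Not at hcon
      rw [hcon.1, hcon.2] at hdS
      simp at hdS) (β := B' 0 0) (by linarith) (by linarith)
    linarith [r1.1, r2.2]
  · simp only [hB', mul_zero, zero_mul, add_zero, zero_add] at k00 k01 k10 k11 s00 s01 s10 s11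
    have r1 := big_eig (hAn 0 0) (hAn 1 1) hA1 hA2 (hRn 0 0) (hRn 1 0) (by
      by_contra hcon
      push Not at hcon
      rw [hcon.1, hcon.2] at hdR
      simp at hdR) (β := B' 0 0) (by linarith) (by linarith)
    have r2 := big_eig (a := A' 0 0) (b := A' 1 0) (c := A' 0 1) (d := A' 1 1) (hAn 0 0) (hAn 1 1)
      hA2 hA1 (hSn 1 0) (hSn 1 1) (by
      by_contra hcon
      push Not at hcon
      rw [hcon.1, hcon.2] at hdS
      simp at hdS) (β := B' 1 1) (by linarith) (by linarith)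
    linarith [r1.1, r2.2]

theorem result (A B : Matrix (Fin 2) (Fin 2) ℕ)
    (hquad : 500 * |(A.map (Nat.cast : ℕ → ℤ)).det| ≤ (A.map (Nat.cast : ℕ → ℤ)).trace ^ 2) :
    (SSE A B ↔ SE ℕ A B) ∧
      (1 ≤ A 0 1 → 1 ≤ A 1 0 → 1 ≤ B 0 1 → 1 ≤ B 1 0 →
        (SE ℕ A B ↔ SE ℤ (A.map (Nat.cast : ℕ → ℤ)) (B.map (Nat.cast : ℕ → ℤ)))) := by
  have h2 : SE ℕ A B → SE ℤ (A.map (Nat.cast : ℕ → ℤ)) (B.map (Nat.cast : ℕ → ℤ)) :=
    Pool.Agent.Y321.SE2.seZ_of_seN
  refine ⟨⟨SSE.se, fun h => ?_⟩, fun a1 a2 b1 b2 => ⟨h2, fun h =>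
    SSE.se (irr_case A B ⟨a1, a2⟩ ⟨b1, b2⟩ hquad h)⟩⟩
  have dich : ∀ M : Matrix (Fin 2) (Fin 2) ℕ,
      (1 ≤ M 0 1 ∧ 1 ≤ M 1 0) ∨ (M 0 1 = 0 ∨ M 1 0 = 0) := fun M => by omega
  rcases dich A with hA | hA
  · rcases dich B with hB | hB
    · exact irr_case A B hA hB hquad (h2 h)
    · by_cases hd : (A.map (Nat.cast : ℕ → ℤ)).det = 0
      · exact good_good (good_sing A hA hd) (good_tri B hB) h
      · exact (no_se A B hA hd hB h).elim
  · rcases dich B with hB | hB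
    · by_cases hd : (B.map (Nat.cast : ℕ → ℤ)).det = 0
      · exact good_good (good_tri A hA) (good_sing B hB hd) h
      · exact (no_se B A hB hd hA h.symm).elim
    · exact good_good (good_tri A hA) (good_tri B hB) h

end Pool.Agent.Results.MP_993212_an.AllTwoByTwoSmallDet
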