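import Pool.Agent.Run7.h850.SC.Mono

/-!
# MP_993212_an: a local-global principle for strong shift equivalence over `ℤ⁺`
-/

set_option autoImplicit false

namespace Pool.Agent.Results.MP_993212_an.LocalGlobalSSE

open Matrix

/-- Elementary equivalence of square matrices over `ℕ`: `A = RS`, `B = SR`. -/
def Elem (X Y : Σ n : ℕ, Matrix (Fin n) (Fin n) ℕ) : Prop :=
  ∃ (R : Matrix (Fin X.1) (Fin Y.1) ℕ) (S : Matrix (Fin Y.1) (Fin X.1) ℕ),
    X.2 = R * S ∧ Y.2 = S * R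

/-- Strong shift equivalence over `ℕ` (a finite chain of elementary equivalences). -/
def SSE {n m : ℕ} (A : Matrix (Fin n) (Fin n) ℕ) (B : Matrix (Fin m) (Fin m) ℕ) : Prop :=
  Relation.TransGen Elem ⟨n, A⟩ ⟨m, B⟩

/-- `R, S` is a shift equivalence of lag `l` from `A` to `B`. -/
def IsSE {n m : ℕ} (A : Matrix (Fin n) (Fin n) ℕ) (B : Matrix (Fin m) (Fin m) ℕ)
    (l : ℕ) (R : Matrix (Fin n) (Fin m) ℕ) (S : Matrix (Fin m) (Fin n) ℕ) : Prop :=
  1 ≤ l ∧ R * S = A ^ l ∧ S * R = B ^ l ∧ A * R = R * B ∧ S * A = B * S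

/-- Shift equivalence over `ℕ`. -/
def SE {n m : ℕ} (A : Matrix (Fin n) (Fin n) ℕ) (B : Matrix (Fin m) (Fin m) ℕ) : Prop :=
  ∃ l R S, IsSE A B l R S

/-- `Chain X Y ρ`: a chain of elementary equivalences `X = X₀, …, X_k = Y`, `X_{i-1} = R_i S_i`,
`X_i = S_i R_i`, with `ρ = R₁ ⋯ R_k`. -/
inductive Chain : (X Y : Σ n : ℕ, Matrix (Fin n) (Fin n) ℕ) → Matrix (Fin X.1) (Fin Y.1) ℕ → Prop
  | refl (X : Σ n : ℕ, Matrix (Fin n) (Fin n) ℕ) : Chain X X 1
  | step (X Y Z : Σ n : ℕ, Matrix (Fin n) (Fin n) ℕ) (R : Matrix (Fin X.1) (Fin Y.1) ℕ)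
      (S : Matrix (Fin Y.1) (Fin X.1) ℕ) (ρ : Matrix (Fin Y.1) (Fin Z.1) ℕ)
      (h1 : X.2 = R * S) (h2 : Y.2 = S * R) (h : Chain Y Z ρ) : Chain X Z (R * ρ)

/-- `C` is primitive (the edge shift is mixing): some power `C ^ N`, `N ≥ 1`, has no zero entry. -/
def Primitive {k : ℕ} (C : Matrix (Fin k) (Fin k) ℕ) : Prop :=
  ∃ N, 1 ≤ N ∧ ∀ a b, (C ^ N) a b ≠ 0

/-- `f` enumerates the irreducible component of the state `i`: the set of all states `j` which can be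
reached from `i` and from which `i` can be reached. -/
def IsComp {n k : ℕ} (A : Matrix (Fin n) (Fin n) ℕ) (i : Fin n) (f : Fin k → Fin n) : Prop :=
  Function.Injective f ∧
    ∀ j, j ∈ Set.range f ↔ (∃ p : ℕ, (A ^ p) i j ≠ 0) ∧ ∃ p : ℕ, (A ^ p) j i ≠ 0

/-- All diagonal blocks of the shift equivalence `(R, S)` are realised up to a power: whenever `C`
is an irreducible component of `A` containing a closed path and `D` is an irreducible component of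
`B` such that the blocks `R_{CD}` and `S_{DC}` are not zero, then for some `t` the matrix
`A_C ^ t R_{CD}` is the total product of a chain of elementary equivalences from `A_C` to `B_D`. -/
def LocallyRealised {n m : ℕ} (A : Matrix (Fin n) (Fin n) ℕ) (B : Matrix (Fin m) (Fin m) ℕ)
    (R : Matrix (Fin n) (Fin m) ℕ) (S : Matrix (Fin m) (Fin n) ℕ) : Prop :=
  ∀ (i : Fin n) (j : Fin m), (∃ p, 1 ≤ p ∧ (A ^ p) i i ≠ 0) →
    ∀ (k k' : ℕ) (f : Fin k → Fin n) (g : Fin k' → Fin m), IsComp A i f → IsComp B j g →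
      R.submatrix f g ≠ 0 → S.submatrix g f ≠ 0 →
      ∃ t : ℕ, Chain ⟨k, A.submatrix f f⟩ ⟨k', B.submatrix g g⟩
        ((A.submatrix f f) ^ t * R.submatrix f g)

/-- Every shift equivalence `(R, S)` from `C` to itself is realised up to a power: for some `t` the
matrix `C ^ t R` is the total product of a chain of elementary equivalences from `C` to `C`. In
other words, the dimension representation of `C` is surjective. -/
def Realises {k : ℕ} (C : Matrix (Fin k) (Fin k) ℕ) : Prop :=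
  ∀ l R S, IsSE C C l R S → ∃ t, Chain ⟨k, C⟩ ⟨k, C⟩ (C ^ t * R)

/-- Every irreducible component of `A` which contains a closed path is strong shift equivalent to a
member of the class `K`. -/
def ComponentsIn (K : ∀ k : ℕ, Matrix (Fin k) (Fin k) ℕ → Prop) {n : ℕ}
    (A : Matrix (Fin n) (Fin n) ℕ) : Prop :=
  ∀ i : Fin n, (∃ p, 1 ≤ p ∧ (A ^ p) i i ≠ 0) → ∃ (k : ℕ) (f : Fin k → Fin n),
    IsComp A i f ∧
    ∃ (k' : ℕ) (C : Matrix (Fin k') (Fin k') ℕ), K k' C ∧ SSE (A.submatrix f f) C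

/-- A good class: its members realise all their shift equivalences up to powers, and members
which are shift equivalent are strong shift equivalent. -/
def Good (K : ∀ k : ℕ, Matrix (Fin k) (Fin k) ℕ → Prop) : Prop :=
  (∀ k C, K k C → Realises C) ∧ ∀ k k' C D, K k C → K k' D → SE C D → SSE C D

/-- `C` is a weighted cycle: `C i j = a i ≥ 1` if `j = σ i` and `0` otherwise, where `σ` is a
permutation with a single orbit. (In other words: `C` is irreducible with exactly one nonzero entry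
in each row; the edge shift is a tower over a full shift.) -/
def WeightedCycle {k : ℕ} (C : Matrix (Fin k) (Fin k) ℕ) : Prop :=
  ∃ (σ : Equiv.Perm (Fin k)) (a : Fin k → ℕ), (∀ i, 1 ≤ a i) ∧
    (∀ i j, C i j = if j = σ i then a i else 0) ∧ ∀ i j, ∃ p : ℕ, (σ ^ p) i = j

/-- The class of all weighted cycles (among them all `[m]`, `m ≥ 1`, and all cycles) and all
primitive `2 × 2` matrices of determinant `± 1`. -/
def Explicit (k : ℕ) (C : Matrix (Fin k) (Fin k) ℕ) : Prop :=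
  (1 ≤ k ∧ WeightedCycle C) ∨
    (k = 2 ∧ Primitive C ∧ ((C.map (Nat.cast : ℕ → ℤ)).det = 1 ∨
      (C.map (Nat.cast : ℕ → ℤ)).det = -1))

open H812R2.SSE
open Run7.h850.SS

theorem chain_of_ch {X Y : Obj} {ρ : Matrix X.ι Y.ι ℕ} (h : CH X Y ρ) :
    ∀ {n m : ℕ} (e : X.ι ≃ Fin n) (f : Y.ι ≃ Fin m),
      Chain ⟨n, X.M.submatrix e.symm e.symm⟩ ⟨m, Y.M.submatrix f.symm f.symm⟩
        (ρ.submatrix e.symm f.symm) := by
  induction h with
  | refl X =>
    intro n m e f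
    have h := Chain.step ⟨n, X.M.submatrix e.symm e.symm⟩ ⟨m, X.M.submatrix f.symm f.symm⟩ _
      ((1 : Matrix X.ι X.ι ℕ).submatrix e.symm f.symm) (X.M.submatrix f.symm e.symm) 1
      (by rw [Matrix.submatrix_mul_equiv, Matrix.one_mul])
      (by rw [Matrix.submatrix_mul_equiv, Matrix.mul_one]) (Chain.refl _)
    rwa [Matrix.mul_one] at h
  | step X Y Z R S ρ h1 h2 _ ih =>
    intro n m e f
    have h := Chain.step ⟨n, X.M.submatrix e.symm e.symm⟩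
      ⟨_, Y.M.submatrix (Fintype.equivFin Y.ι).symm (Fintype.equivFin Y.ι).symm⟩ _
      (R.submatrix e.symm (Fintype.equivFin Y.ι).symm) (S.submatrix (Fintype.equivFin Y.ι).symm e.symm)
      _ (by rw [Matrix.submatrix_mul_equiv, ← h1]) (by rw [Matrix.submatrix_mul_equiv, ← h2])
      (ih (Fintype.equivFin Y.ι) f)
    rwa [Matrix.submatrix_mul_equiv] at h

theorem chain_of_ch' {n m : ℕ} {A : Matrix (Fin n) (Fin n) ℕ} {B : Matrix (Fin m) (Fin m) ℕ}
    {ρ : Matrix (Fin n) (Fin m) ℕ} (h : CH ⟨Fin n, A⟩ ⟨Fin m, B⟩ ρ) : Chain ⟨n, A⟩ ⟨m, B⟩ ρ :=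
  chain_of_ch h (Equiv.refl _) (Equiv.refl _)

theorem ch_of_chain {X Y : Σ n : ℕ, Matrix (Fin n) (Fin n) ℕ} {ρ : Matrix (Fin X.1) (Fin Y.1) ℕ}
    (h : Chain X Y ρ) : CH ⟨Fin X.1, X.2⟩ ⟨Fin Y.1, Y.2⟩ ρ := by
  induction h with
  | refl X => exact CH.refl _
  | step X Y Z R S ρ h1 h2 _ ih =>
    exact CH.step ⟨Fin X.1, X.2⟩ ⟨Fin Y.1, Y.2⟩ ⟨Fin Z.1, Z.2⟩ R S ρ h1 h2 ih

theorem ch_of_transGen {X Y : Σ n : ℕ, Matrix (Fin n) (Fin n) ℕ}
    (h : Relation.TransGen Elem X Y) :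
    ∃ ρ, CH ⟨Fin X.1, X.2⟩ ⟨Fin Y.1, Y.2⟩ ρ := by
  have h1 : ∀ X Y, Elem X Y → ∃ ρ, CH ⟨Fin X.1, X.2⟩ ⟨Fin Y.1, Y.2⟩ ρ := by
    rintro X Y ⟨R, S, h1, h2⟩
    exact ⟨R, CH.single (X := ⟨Fin X.1, X.2⟩) (Y := ⟨Fin Y.1, Y.2⟩) R S h1 h2⟩
  induction h with
  | single h => exact h1 _ _ h
  | tail _ h ih =>
    obtain ⟨ρ, c⟩ := ih
    obtain ⟨ρ', c'⟩ := h1 _ _ h
    exact ⟨_, c.trans c'⟩

theorem sse_of_ch {n m : ℕ} {A : Matrix (Fin n) (Fin n) ℕ} {B : Matrix (Fin m) (Fin m) ℕ}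
    {ρ : Matrix (Fin n) (Fin m) ℕ} (h : CH ⟨Fin n, A⟩ ⟨Fin m, B⟩ ρ) : SSE A B :=
  transGen_of_ch h

theorem se_iff {n m : ℕ} (A : Matrix (Fin n) (Fin n) ℕ) (B : Matrix (Fin m) (Fin m) ℕ) :
    SE A B ↔ SE' A B := by
  constructor
  · rintro ⟨l, R, S, hl, h⟩; exact ⟨l, hl, R, S, h⟩
  · rintro ⟨l, hl, R, S, h⟩; exact ⟨l, R, S, hl, h⟩

theorem se_of_sse {n m : ℕ} {A : Matrix (Fin n) (Fin n) ℕ} {B : Matrix (Fin m) (Fin m) ℕ}
    (h : SSE A B) : SE A B :=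
  (se_iff A B).2 (se_of_transGen (X := ⟨n, A⟩) (Y := ⟨m, B⟩) h)

/-- the class as a property of objects -/
def PK (K : ∀ k : ℕ, Matrix (Fin k) (Fin k) ℕ → Prop) (X : Obj) : Prop :=
  ∃ (k : ℕ) (C : Matrix (Fin k) (Fin k) ℕ) (e : X.ι ≃ Fin k), K k C ∧
    X.M.submatrix e.symm e.symm = C

theorem rl_self {k : ℕ} {C : Matrix (Fin k) (Fin k) ℕ} (h : Realises C) :
    Rl ⟨Fin k, C⟩ ⟨Fin k, C⟩ := by
  intro l hl R S h1 h2 h3 h4
  obtain ⟨t, ht⟩ := h l R S ⟨hl, h1, h2, h3, h4⟩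
  exact ⟨t, ch_of_chain ht⟩

theorem rl_of_good {K : ∀ k : ℕ, Matrix (Fin k) (Fin k) ℕ → Prop} (h : Good K) (X Y : Obj)
    (hX : PK K X) (hY : PK K Y) : Rl X Y := by
  obtain ⟨k, C, e, hK, hC⟩ := hX
  obtain ⟨k', D, f, hK', hD⟩ := hY
  refine rl_iso e f X.M Y.M ?_
  rw [hC, hD]
  exact rl_of_self (rl_self (h.1 k C hK)) (fun hs => by
    obtain ⟨ρ, c⟩ := ch_of_transGen (h.2 k k' C D hK hK' ((se_iff C D).2 hs))
    exact ⟨ρ, c⟩)

theorem sg_of_in {K : ∀ k : ℕ, Matrix (Fin k) (Fin k) ℕ → Prop} {n : ℕ}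
    {A : Matrix (Fin n) (Fin n) ℕ} (h : ComponentsIn K A) (i : Fin n) :
    Wand A i ∨ Sg (PK K) (compO A i) := by
  by_cases hi : ∃ p, 1 ≤ p ∧ (A ^ p) i i ≠ 0
  · right
    obtain ⟨k, f, ⟨hf, hr⟩, k', C, hK, hs⟩ := h i hi
    let ε : Fin k ≃ {j // Mut A i j} :=
      Equiv.ofBijective (fun a => ⟨f a, (hr (f a)).1 ⟨a, rfl⟩⟩)
        ⟨fun a b hab => hf (congrArg Subtype.val hab), fun j => by
          obtain ⟨a, ha⟩ := (hr j.1).2 j.2
          exact ⟨a, Subtype.ext ha⟩⟩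
    obtain ⟨ρ, c⟩ := @ch_iso' (compO A i) (Fin k) _ _ ε.symm (A.submatrix f f) (fun a b => by
      have e1 : ∀ x : {j // Mut A i j}, f (ε.symm x) = x.1 := fun x =>
        congrArg Subtype.val (ε.apply_symm_apply x)
      change A (f (ε.symm a)) (f (ε.symm b)) = A a.1 b.1
      rw [e1, e1])
    obtain ⟨ρ', c'⟩ := ch_of_transGen hs
    exact ⟨⟨Fin k', C⟩, _, ⟨k', C, Equiv.refl _, hK, rfl⟩, c.trans c'⟩
  · left
    intro p hp
    by_contra hne
    exact hi ⟨p, hp, hne⟩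

theorem tri_pow {C : Matrix (Fin 2) (Fin 2) ℕ} (h : C 0 1 = 0) (N : ℕ) : (C ^ N) 0 1 = 0 := by
  induction N with
  | zero => simp
  | succ N ih => rw [pow_succ, Matrix.mul_apply, Fin.sum_univ_two, h, ih]; simp

theorem tri_pow' {C : Matrix (Fin 2) (Fin 2) ℕ} (h : C 1 0 = 0) (N : ℕ) : (C ^ N) 1 0 = 0 := by
  induction N with
  | zero => simp
  | succ N ih => rw [pow_succ, Matrix.mul_apply, Fin.sum_univ_two, h, ih]; simp

theorem hyp_of {C : Matrix (Fin 2) (Fin 2) ℕ} (hp : Primitive C)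
    (hd : (C.map (Nat.cast : ℕ → ℤ)).det = 1 ∨ (C.map (Nat.cast : ℕ → ℤ)).det = -1) : Hyp C := by
  obtain ⟨N, hN, hp⟩ := hp
  have hb : C 0 1 ≠ 0 := fun h => hp 0 1 (tri_pow h N)
  have hc : C 1 0 ≠ 0 := fun h => hp 1 0 (tri_pow' h N)
  have e : dt C = (C.map (Nat.cast : ℕ → ℤ)).det := rfl
  rcases hd with hd | hd
  · left
    refine ⟨e.trans hd, ?_⟩
    rw [← e, dt_eq] at hd
    by_contra hlt
    have h1 : 1 ≤ C 0 1 * C 1 0 := Nat.mul_pos (Nat.pos_of_ne_zero hb) (Nat.pos_of_ne_zero hc)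
    have h2 : C 0 0 * C 1 1 = C 0 1 * C 1 0 + 1 := by
      have : ((C 0 0 * C 1 1 : ℕ) : ℤ) = ((C 0 1 * C 1 0 + 1 : ℕ) : ℤ) := by
        push_cast; linarith
      exact_mod_cast this
    have h3 : C 0 0 ≤ 2 := by omega
    have h4 : C 1 1 ≤ 2 := by omega
    have h5 : C 0 0 * C 1 1 ≤ 1 := by
      interval_cases C 0 0 <;> interval_cases C 1 1 <;> omega
    omega
  · right
    refine ⟨e.trans hd, ?_⟩
    by_contra hlt
    have h0 : C 0 0 = 0 := by omega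
    have h1 : C 1 1 = 0 := by omega
    rw [← e, dt_eq, h0, h1] at hd
    have h2 : C 0 1 * C 1 0 = 1 := by
      have : ((C 0 1 * C 1 0 : ℕ) : ℤ) = ((1 : ℕ) : ℤ) := by
        push_cast at hd ⊢; linarith
      exact_mod_cast this
    have h3 : C 0 1 = 1 := Nat.eq_one_of_mul_eq_one_right h2
    have h4 : C 1 0 = 1 := Nat.eq_one_of_mul_eq_one_left h2
    have hC : C = Pm := by
      ext i j
      fin_cases i <;> fin_cases j
      · exact h0
      · exact h3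
      · exact h4
      · exact h1
    have h5 : ∀ N : ℕ, Pm ^ N = 1 ∨ Pm ^ N = Pm := by
      intro N
      induction N with
      | zero => left; exact pow_zero _
      | succ N ih =>
        rcases ih with ih | ih
        · right; rw [pow_succ, ih, Matrix.one_mul]
        · left; rw [pow_succ, ih, Pm_sq]
    rcases h5 N with h6 | h6
    · exact hp 0 1 (by rw [hC, h6]; simp)
    · exact hp 0 0 (by rw [hC, h6]; simp [Pm])

/-- the members of the class which are not cycles -/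
def Exp0 (k : ℕ) (C : Matrix (Fin k) (Fin k) ℕ) : Prop :=
  (k = 1 ∧ ∀ i j, 1 ≤ C i j) ∨ (k = 2 ∧ Primitive C ∧
    ((C.map (Nat.cast : ℕ → ℤ)).det = 1 ∨ (C.map (Nat.cast : ℕ → ℤ)).det = -1))

theorem exp_cases {k : ℕ} {C : Matrix (Fin k) (Fin k) ℕ} (h : Explicit k C) :
    Exp0 k C ∨ (2 ≤ k ∧ WeightedCycle C) := by
  rcases h with ⟨hk, h⟩ | h
  · rcases Nat.lt_or_ge k 2 with h2 | h2
    · left; left
      obtain rfl : k = 1 := by omega
      obtain ⟨σ, a, ha, hσ, _⟩ := h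
      refine ⟨rfl, fun i j => ?_⟩
      rw [hσ, if_pos (Subsingleton.elim _ _)]
      exact ha i
    · exact Or.inr ⟨h2, h⟩
  · exact Or.inl (Or.inr h)

theorem pp_of_exp0 {k : ℕ} {C : Matrix (Fin k) (Fin k) ℕ} (h : Exp0 k C) :
    PP12 ⟨Fin k, C⟩ := by
  rcases h with ⟨rfl, h⟩ | ⟨rfl, h1, h2⟩
  · left
    refine ⟨Equiv.refl _, C 0 0, h 0 0, ?_⟩
    ext i j
    change C i j = C 0 0
    rw [Subsingleton.elim i 0, Subsingleton.elim j 0]
  · right
    exact ⟨Equiv.refl _, hyp_of h1 h2⟩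

theorem prim_of_exp0 {k : ℕ} {C : Matrix (Fin k) (Fin k) ℕ} (h : Exp0 k C) :
    ∃ N : ℕ, ∀ a b, (C ^ N) a b ≠ 0 := by
  rcases h with ⟨rfl, h⟩ | ⟨rfl, ⟨N, _, h⟩, _⟩
  · refine ⟨1, fun a b => ?_⟩
    rw [pow_one]
    have := h a b
    omega
  · exact ⟨N, h⟩

theorem no_mixed {k k' : ℕ} {C : Matrix (Fin k) (Fin k) ℕ} {D : Matrix (Fin k') (Fin k') ℕ}
    (hk : 2 ≤ k) (hC : WeightedCycle C) (hD : Exp0 k' D) {l : ℕ} {R : Matrix (Fin k) (Fin k') ℕ}
    {S : Matrix (Fin k') (Fin k) ℕ} (h1 : R * S = C ^ l) (h4 : S * C = D * S) : False :=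
  Run7.h850.SC.mo_prim (X := ⟨Fin k, C⟩) (Y := ⟨Fin k', D⟩) hC
    ⟨⟨0, by omega⟩, ⟨1, by omega⟩, fun h => by
      have := Fin.mk.inj_iff.1 h
      omega⟩ (prim_of_exp0 hD) h1 h4

theorem explicit_good : Good Explicit := by
  refine ⟨?_, ?_⟩
  · intro k C h
    intro l R S ⟨hl, h1, h2, h3, h4⟩
    rcases exp_cases h with h | ⟨_, h⟩
    · obtain ⟨t, c⟩ := rl12all _ _ (pp_of_exp0 h) (pp_of_exp0 h) l hl R S h1 h2 h3 h4
      exact ⟨t, chain_of_ch' c⟩
    · obtain ⟨t, c⟩ := Run7.h850.SC.rl_mo (X := ⟨Fin k, C⟩) (Y := ⟨Fin k, C⟩) h h l hl R S h1 h2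
        h3 h4
      exact ⟨t, chain_of_ch' c⟩
  · intro k k' C D hC hD ⟨l, R, S, hl, h1, h2, h3, h4⟩
    rcases exp_cases hC with hC | ⟨hk, hC⟩ <;> rcases exp_cases hD with hD | ⟨hk', hD⟩
    · obtain ⟨t, c⟩ := rl12all _ _ (pp_of_exp0 hC) (pp_of_exp0 hD) l hl R S h1 h2 h3 h4
      exact sse_of_ch c
    · exact (no_mixed hk' hD hC h2 h3.symm).elim
    · exact (no_mixed hk hC hD h1 h4).elim
    · obtain ⟨t, c⟩ := Run7.h850.SC.rl_mo (X := ⟨Fin k, C⟩) (Y := ⟨Fin k', D⟩) hC hD l hl R S h1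
        h2 h3 h4
      exact sse_of_ch c

/-- the enumeration of a component as an equivalence -/
noncomputable def compEquiv {n k : ℕ} {A : Matrix (Fin n) (Fin n) ℕ} {i : Fin n}
    {f : Fin k → Fin n} (h : IsComp A i f) : Fin k ≃ (compO A i).ι :=
  Equiv.ofBijective (fun a => (⟨f a, (h.2 (f a)).1 ⟨a, rfl⟩⟩ : {j // Mut A i j}))
    ⟨fun a b hab => h.1 (congrArg Subtype.val hab), fun j => by
      obtain ⟨a, ha⟩ := (h.2 j.1).2 j.2
      exact ⟨a, Subtype.ext ha⟩⟩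

theorem exists_comp {n : ℕ} (A : Matrix (Fin n) (Fin n) ℕ) (i : Fin n) :
    ∃ (k : ℕ) (f : Fin k → Fin n), IsComp A i f := by
  classical
  refine ⟨Fintype.card {j // Mut A i j}, fun a => ((Fintype.equivFin {j // Mut A i j}).symm a).1,
    ?_, ?_⟩
  · intro a b hab
    exact (Fintype.equivFin {j // Mut A i j}).symm.injective (Subtype.ext hab)
  · intro j
    constructor
    · rintro ⟨a, rfl⟩
      exact ((Fintype.equivFin {j // Mut A i j}).symm a).2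
    · intro hj
      refine ⟨Fintype.equivFin {j // Mut A i j} ⟨j, hj⟩, ?_⟩
      simp

theorem sd_of_isSE {n m : ℕ} {A : Matrix (Fin n) (Fin n) ℕ} {B : Matrix (Fin m) (Fin m) ℕ}
    {l : ℕ} {R : Matrix (Fin n) (Fin m) ℕ} {S : Matrix (Fin m) (Fin n) ℕ} (h : IsSE A B l R S) :
    SD A B R S l := ⟨h.2.1, h.2.2.1, h.2.2.2.1, h.2.2.2.2⟩

theorem strong_of_mt {n m : ℕ} {A : Matrix (Fin n) (Fin n) ℕ} {B : Matrix (Fin m) (Fin m) ℕ}
    {l : ℕ} {R : Matrix (Fin n) (Fin m) ℕ} {S : Matrix (Fin m) (Fin n) ℕ} (h : SD A B R S l)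
    {i : Fin n} {j : Fin m} (hm : Mt A R S i j) {k k' : ℕ} {f : Fin k → Fin n}
    {g : Fin k' → Fin m} (hf : IsComp A i f) (hg : IsComp B j g) :
    R.submatrix f g ≠ 0 ∧ S.submatrix g f ≠ 0 := by
  obtain ⟨⟨a, ha⟩, b, hb⟩ := hm
  obtain ⟨y, hy⟩ := (hg.2 j).2 ⟨⟨0, by simp⟩, ⟨0, by simp⟩⟩
  constructor
  · obtain ⟨x, h1, h2⟩ := mex ha
    have h3 : (A ^ (l + b)) x i ≠ 0 := by
      rw [pow_add, ← h.rs, Matrix.mul_assoc]
      exact mne h2 hb
    obtain ⟨x', rfl⟩ := (hf.2 x).2 ⟨⟨a, h1⟩, ⟨_, h3⟩⟩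
    intro h0
    have h4 := congrFun (congrFun h0 x') y
    rw [Matrix.submatrix_apply, hy] at h4
    exact h2 h4
  · obtain ⟨x, h1, h2⟩ := mex hb
    have h3 : (A ^ (a + l)) i x ≠ 0 := by
      rw [pow_add, ← h.rs, ← Matrix.mul_assoc]
      exact mne ha h1
    obtain ⟨x', rfl⟩ := (hf.2 x).2 ⟨⟨_, h3⟩, ⟨b, h2⟩⟩
    intro h0
    have h4 := congrFun (congrFun h0 y) x'
    rw [Matrix.submatrix_apply, hy] at h4
    exact h1 h4

theorem mt_of_strong {n m : ℕ} {A : Matrix (Fin n) (Fin n) ℕ} {B : Matrix (Fin m) (Fin m) ℕ}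
    {l : ℕ} {R : Matrix (Fin n) (Fin m) ℕ} {S : Matrix (Fin m) (Fin n) ℕ} (h : SD A B R S l)
    {i : Fin n} {j : Fin m} {k k' : ℕ} {f : Fin k → Fin n}
    {g : Fin k' → Fin m} (hf : IsComp A i f) (hg : IsComp B j g)
    (hR : R.submatrix f g ≠ 0) (hS : S.submatrix g f ≠ 0) : Mt A R S i j := by
  constructor
  · obtain ⟨x, y, hxy⟩ : ∃ x y, R (f x) (g y) ≠ 0 := by
      by_contra hcon
      push Not at hcon
      apply hR
      ext x y
      exact hcon x y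
    obtain ⟨⟨a, ha⟩, _⟩ := (hf.2 (f x)).1 ⟨x, rfl⟩
    obtain ⟨_, b, hb⟩ := (hg.2 (g y)).1 ⟨y, rfl⟩
    refine ⟨a + b, ?_⟩
    rw [pow_add, Matrix.mul_assoc, h.arp b, ← Matrix.mul_assoc]
    exact mne (mne ha hxy) hb
  · obtain ⟨y, x, hxy⟩ : ∃ y x, S (g y) (f x) ≠ 0 := by
      by_contra hcon
      push Not at hcon
      apply hS
      ext x y
      exact hcon x y
    obtain ⟨_, a, ha⟩ := (hf.2 (f x)).1 ⟨x, rfl⟩
    obtain ⟨⟨b, hb⟩, _⟩ := (hg.2 (g y)).1 ⟨y, rfl⟩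
    refine ⟨b + a, ?_⟩
    rw [pow_add, ← Matrix.mul_assoc, ← h.sap b]
    exact mne (mne hb hxy) ha

theorem hl_iff {n m : ℕ} {A : Matrix (Fin n) (Fin n) ℕ} {B : Matrix (Fin m) (Fin m) ℕ}
    {l : ℕ} {R : Matrix (Fin n) (Fin m) ℕ} {S : Matrix (Fin m) (Fin n) ℕ} (h : SD A B R S l) :
    Hl A B R S ↔ LocallyRealised A B R S := by
  constructor
  · intro H i j hi k k' f g hf hg hR hS
    obtain ⟨t, c⟩ := H i j hi (mt_of_strong h hf hg hR hS)
    refine ⟨t, chain_of_ch' ?_⟩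
    exact tr_ch (X := ⟨Fin k, A.submatrix f f⟩) (Y := ⟨Fin k', B.submatrix g g⟩)
      (X' := compO A i) (Y' := compO B j) (compEquiv hf) (compEquiv hg) (fun _ _ => rfl)
      (fun _ _ => rfl) (R.submatrix f g) (bl A B R i j) (fun _ _ => rfl) t c
  · intro H i j hi hm
    obtain ⟨k, f, hf⟩ := exists_comp A i
    obtain ⟨k', g, hg⟩ := exists_comp B j
    obtain ⟨hR, hS⟩ := strong_of_mt h hm hf hg
    obtain ⟨t, c⟩ := H i j hi k k' f g hf hg hR hS
    refine ⟨t, ?_⟩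
    have e1 : ∀ x : (compO A i).ι, f ((compEquiv hf).symm x) = x.1 := fun x =>
      congrArg Subtype.val ((compEquiv hf).apply_symm_apply x)
    have e2 : ∀ x : (compO B j).ι, g ((compEquiv hg).symm x) = x.1 := fun x =>
      congrArg Subtype.val ((compEquiv hg).apply_symm_apply x)
    refine tr_ch (X := compO A i) (Y := compO B j) (X' := ⟨Fin k, A.submatrix f f⟩)
      (Y' := ⟨Fin k', B.submatrix g g⟩) (compEquiv hf).symm (compEquiv hg).symm ?_ ?_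
      (bl A B R i j) (R.submatrix f g) ?_ t (ch_of_chain c)
    · intro a b
      change A (f ((compEquiv hf).symm a)) (f ((compEquiv hf).symm b)) = A a.1 b.1
      rw [e1, e1]
    · intro a b
      change B (g ((compEquiv hg).symm a)) (g ((compEquiv hg).symm b)) = B a.1 b.1
      rw [e2, e2]
    · intro a b
      change R (f ((compEquiv hf).symm a)) (g ((compEquiv hg).symm b)) = R a.1 b.1
      rw [e1, e2]

theorem local_global {n m : ℕ} (A : Matrix (Fin n) (Fin n) ℕ) (B : Matrix (Fin m) (Fin m) ℕ)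
    (l : ℕ) (R : Matrix (Fin n) (Fin m) ℕ)
    (S : Matrix (Fin m) (Fin n) ℕ) (h : IsSE A B l R S) :
    (∃ t, Chain ⟨n, A⟩ ⟨m, B⟩ (A ^ t * R)) ↔ LocallyRealised A B R S := by
  have hs := sd_of_isSE h
  rw [← hl_iff hs]
  constructor
  · rintro ⟨t, c⟩
    exact glob_loc A B R S l hs t (ch_of_chain c)
  · intro H
    obtain ⟨t, c⟩ := Run7.h850.SC.loc_glob A B (Run7.h850.SC.pb_comp A)
      (Run7.h850.SC.pb_comp B) R S l hs H
    exact ⟨t, chain_of_ch' c⟩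

theorem sse_iff {n m : ℕ} (A : Matrix (Fin n) (Fin n) ℕ) (B : Matrix (Fin m) (Fin m) ℕ) :
    SSE A B ↔ ∃ l R S, IsSE A B l R S ∧ LocallyRealised A B R S := by
  constructor
  · intro hs
    obtain ⟨ρ, c⟩ := ch_of_transGen hs
    obtain ⟨ρs, a, h, _⟩ := sd_of_ch c
    change SD A B ρ ρs a at h
    have hse : IsSE A B (a + 1) ρ (B * ρs) := by
      refine ⟨by omega, ?_, ?_, h.ar, ?_⟩
      · rw [← Matrix.mul_assoc, ← h.ar, Matrix.mul_assoc, h.rs, pow_succ']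
      · rw [Matrix.mul_assoc, h.sr, pow_succ']
      · rw [Matrix.mul_assoc, h.sa]
    refine ⟨a + 1, ρ, B * ρs, hse, ?_⟩
    rw [← local_global A B _ _ _ hse]
    refine ⟨0, ?_⟩
    rw [pow_zero, Matrix.one_mul]
    exact chain_of_ch' c
  · rintro ⟨l, R, S, h, H⟩
    obtain ⟨t, c⟩ := (local_global A B l R S h).2 H
    exact sse_of_ch (ch_of_chain c)

theorem rl_comp {K : ∀ k : ℕ, Matrix (Fin k) (Fin k) ℕ → Prop} (hK : Good K) {n m : ℕ}
    {A : Matrix (Fin n) (Fin n) ℕ} {B : Matrix (Fin m) (Fin m) ℕ}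
    (hA : ComponentsIn K A) (hB : ComponentsIn K B) (i : Fin n) (j : Fin m) (hi : Rec A i)
    (hj : Rec B j) : Rl (compO A i) (compO B j) := by
  have h1 : Sg (PK K) (compO A i) := by
    rcases sg_of_in hA i with h | h
    · obtain ⟨p, hp, hne⟩ := hi
      exact absurd (h p hp) hne
    · exact h
  have h2 : Sg (PK K) (compO B j) := by
    rcases sg_of_in hB j with h | h
    · obtain ⟨p, hp, hne⟩ := hj
      exact absurd (h p hp) hne
    · exact h
  obtain ⟨X', ρ, hX', c⟩ := h1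
  obtain ⟨Y', ρ', hY', c'⟩ := h2
  exact Run7.h850.SC.rl_ch c c' (rl_of_good hK X' Y' hX' hY')

theorem main {K : ∀ k : ℕ, Matrix (Fin k) (Fin k) ℕ → Prop} (hK : Good K) {n m : ℕ}
    (A : Matrix (Fin n) (Fin n) ℕ) (B : Matrix (Fin m) (Fin m) ℕ)
    (hA : ComponentsIn K A) (hB : ComponentsIn K B) :
    (SSE A B ↔ SE A B) ∧ ∀ l R S, IsSE A B l R S → ∃ t, Chain ⟨n, A⟩ ⟨m, B⟩ (A ^ t * R) := by
  have key : ∀ l R S, IsSE A B l R S → ∃ t, Chain ⟨n, A⟩ ⟨m, B⟩ (A ^ t * R) := by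
    intro l R S h
    rw [local_global A B l R S h, ← hl_iff (sd_of_isSE h)]
    exact Run7.h850.SC.hl_of_rl A B (rl_comp hK hA hB) R S l h.1 (sd_of_isSE h)
  refine ⟨⟨se_of_sse, ?_⟩, key⟩
  rintro ⟨l, R, S, h⟩
  obtain ⟨t, c⟩ := key l R S h
  exact sse_of_ch (ch_of_chain c)

/-- **Local-global principle** for strong shift equivalence over `ℤ⁺`.
(1) Let `(R, S)` be a shift equivalence from `A` to `B`. It is realised up to a power (`A ^ t R` is
the total product of a chain of elementary equivalences for some `t`) iff all its diagonal blocks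
are.
(2) `A` and `B` are strong shift equivalent iff there is a shift equivalence from `A` to `B` all of
whose diagonal blocks are realised up to a power.
(3) For a good class `K`, shift equivalence and strong shift equivalence coincide for the matrices
whose components are strong shift equivalent to members of `K`, and every shift equivalence between
them is realised up to a power.
(4) The class of all weighted cycles (among them all `[m]`, `m ≥ 1`, and all cycles) and all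
primitive `2 × 2` matrices of determinant `± 1` is good. -/
theorem result :
    (∀ {n m : ℕ} (A : Matrix (Fin n) (Fin n) ℕ) (B : Matrix (Fin m) (Fin m) ℕ),
      ∀ l R S, IsSE A B l R S →
        ((∃ t, Chain ⟨n, A⟩ ⟨m, B⟩ (A ^ t * R)) ↔ LocallyRealised A B R S)) ∧
    (∀ {n m : ℕ} (A : Matrix (Fin n) (Fin n) ℕ) (B : Matrix (Fin m) (Fin m) ℕ),
      SSE A B ↔ ∃ l R S, IsSE A B l R S ∧ LocallyRealised A B R S) ∧
    (∀ K : ∀ k : ℕ, Matrix (Fin k) (Fin k) ℕ → Prop, Good K →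
      ∀ {n m : ℕ} (A : Matrix (Fin n) (Fin n) ℕ) (B : Matrix (Fin m) (Fin m) ℕ),
      ComponentsIn K A → ComponentsIn K B →
        (SSE A B ↔ SE A B) ∧
        ∀ l R S, IsSE A B l R S → ∃ t, Chain ⟨n, A⟩ ⟨m, B⟩ (A ^ t * R)) ∧
    Good Explicit :=
  ⟨fun A B l R S h => local_global A B l R S h,
    fun A B => sse_iff A B,
    fun _ hK _ _ A B hA hB => main hK A B hA hB, explicit_good⟩

end Pool.Agent.Results.MP_993212_an.LocalGlobalSSE
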